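import Pool.Agent.TQC.JP

/-!
# Local analysis at a smooth point
-/

namespace Pool.Agent.TQC

open Polynomial Pool.Agent.TQU

/-- a uniformizer -/
theorem unif {M R : Type*} [Field M] [CommRing R] [IsDedekindDomain R] [Algebra M R]
    (F : MvPolynomial (Fin 2) M) (P : Fin 2 → M) (m : Ideal R) (hprime : m.IsPrime) (hne : m ≠ ⊥)
    (u q : Fin 2 → R) (hmu : m = Ideal.span (Set.range u))
    (hq : ∀ i, q i = algebraMap M R (P i))
    (hsum : (lin F q u).coeff 1 + (lin F q u).coeff 2 + (lin F q u).coeff 3 +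
      (lin F q u).coeff 4 = 0) (l : Fin 2 → M)
    (hl : ∀ i, l i = MvPolynomial.eval P (MvPolynomial.pderiv i F))
    (hl0 : l 0 ≠ 0 ∨ l 1 ≠ 0) :
    ∃ δ : Fin 2 → M, δ ≠ 0 ∧ (lin F P δ).coeff 1 = 0 ∧ ∃ w ∈ m, w ∉ m ^ 2 ∧
      ∀ i, u i - algebraMap M R (δ i) * w ∈ m ^ 2 := by
  have hum : ∀ i, u i ∈ m := by
    intro i
    rw [hmu]
    exact Ideal.subset_span (Set.mem_range_self i)
  have hql : ∀ i, MvPolynomial.aeval q (MvPolynomial.pderiv i F) = algebraMap M (R) (l i) := by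
    intro i
    have h6 := MvPolynomial.comp_aeval_apply (φ := (Algebra.ofId M (R)))
        (f := P) (MvPolynomial.pderiv i F)
    rw [RL_aeval] at h6
    have h7 : (fun i => (Algebra.ofId M (R)) (P i)) = q := by
      funext i
      exact (hq i).symm
    rw [h7] at h6
    rw [hl]
    exact h6.symm
  have hc1 : (lin F q u).coeff 1 = u 0 * algebraMap M (R) (l 0) +
      u 1 * algebraMap M (R) (l 1) := by
    rw [RL_coeff_one, hql, hql]
  have hcm : ∀ n, (lin F q u).coeff n ∈ m ^ n := by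
    intro n
    rw [hmu]
    exact lin_coeff_mem F q u n
  have hc1m : u 0 * algebraMap M (R) (l 0) + u 1 * algebraMap M (R) (l 1) ∈ m ^ 2 := by
    rw [← hc1]
    have e : (lin F q u).coeff 1 = -((lin F q u).coeff 2 + ((lin F q u).coeff 3 +
      (lin F q u).coeff 4)) := by
      rw [eq_neg_iff_add_eq_zero, ← hsum]
      ring
    rw [e]
    apply (m ^ 2).neg_mem
    apply (m ^ 2).add_mem (hcm 2)
    exact (m ^ 2).add_mem (Ideal.pow_le_pow_right (by norm_num) (hcm 3))
      (Ideal.pow_le_pow_right (by norm_num) (hcm 4))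
  obtain ⟨δ, hδ0, hδ1⟩ : ∃ δ : Fin 2 → M, δ 0 = l 1 ∧ δ 1 = - l 0 := ⟨![l 1, - l 0], rfl, rfl⟩
  -- a uniformizer
  obtain ⟨w, hwm, hw⟩ : ∃ w ∈ m, ∀ i, u i - algebraMap M (R) (δ i) * w ∈ m ^ 2 := by
    rcases hl0 with h0 | h1
    · refine ⟨algebraMap M (R) (-(l 0)⁻¹) * u 1, Ideal.mul_mem_left _ _ (hum 1), ?_⟩
      intro i
      fin_cases i
      · change u 0 - algebraMap M (R) (δ 0) * (algebraMap M (R) (-(l 0)⁻¹) * u 1) ∈ m ^ 2
        have e : u 0 - algebraMap M (R) (δ 0) * (algebraMap M (R) (-(l 0)⁻¹) * u 1) =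
            algebraMap M (R) ((l 0)⁻¹) *
              (u 0 * algebraMap M (R) (l 0) + u 1 * algebraMap M (R) (l 1)) := by
          have e1 : algebraMap M (R) ((l 0)⁻¹) * algebraMap M (R) (l 0) = 1 := by
            rw [← map_mul, inv_mul_cancel₀ h0, map_one]
          rw [hδ0, map_neg]
          linear_combination (-(u 0)) * e1
        rw [e]
        exact Ideal.mul_mem_left _ _ hc1m
      · change u 1 - algebraMap M (R) (δ 1) * (algebraMap M (R) (-(l 0)⁻¹) * u 1) ∈ m ^ 2
        have e : u 1 - algebraMap M (R) (δ 1) * (algebraMap M (R) (-(l 0)⁻¹) * u 1) = 0 := by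
          have e1 : algebraMap M (R) ((l 0)⁻¹) * algebraMap M (R) (l 0) = 1 := by
            rw [← map_mul, inv_mul_cancel₀ h0, map_one]
          rw [hδ1, map_neg, map_neg]
          linear_combination (-(u 1)) * e1
        rw [e]
        exact (m ^ 2).zero_mem
    · refine ⟨algebraMap M (R) ((l 1)⁻¹) * u 0, Ideal.mul_mem_left _ _ (hum 0), ?_⟩
      intro i
      have e1 : algebraMap M (R) ((l 1)⁻¹) * algebraMap M (R) (l 1) = 1 := by
        rw [← map_mul, inv_mul_cancel₀ h1, map_one]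
      fin_cases i
      · change u 0 - algebraMap M (R) (δ 0) * (algebraMap M (R) ((l 1)⁻¹) * u 0) ∈ m ^ 2
        have e : u 0 - algebraMap M (R) (δ 0) * (algebraMap M (R) ((l 1)⁻¹) * u 0) = 0 := by
          rw [hδ0]
          linear_combination (-(u 0)) * e1
        rw [e]
        exact (m ^ 2).zero_mem
      · change u 1 - algebraMap M (R) (δ 1) * (algebraMap M (R) ((l 1)⁻¹) * u 0) ∈ m ^ 2
        have e : u 1 - algebraMap M (R) (δ 1) * (algebraMap M (R) ((l 1)⁻¹) * u 0) =
            algebraMap M (R) ((l 1)⁻¹) *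
              (u 0 * algebraMap M (R) (l 0) + u 1 * algebraMap M (R) (l 1)) := by
          rw [hδ1, map_neg]
          linear_combination (-(u 1)) * e1
        rw [e]
        exact Ideal.mul_mem_left _ _ hc1m
  have hw2 : w ∉ m ^ 2 := by
    intro hcon
    apply RL_sq m hprime hne
    conv_lhs => rw [hmu]
    rw [Ideal.span_le]
    rintro _ ⟨i, rfl⟩
    have e : u i = (u i - algebraMap M (R) (δ i) * w) + algebraMap M (R) (δ i) * w := by ring
    rw [SetLike.mem_coe, e]
    exact (m ^ 2).add_mem (hw i) (Ideal.mul_mem_left _ _ hcon)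
  refine ⟨δ, ?_, ?_, w, hwm, hw2, hw⟩
  · intro hδ
    rcases hl0 with h0 | h1
    · apply h0
      have h2 := hδ1
      rw [hδ, Pi.zero_apply] at h2
      rw [← neg_eq_zero]
      exact h2.symm
    · apply h1
      rw [← hδ0, hδ]
      rfl
  · rw [RL_coeff_one, RL_aeval, RL_aeval, hδ0, hδ1, ← hl, ← hl]
    ring

/-- points of a smooth curve are smooth -/
theorem smooth_pt {M : Type*} [Field M] (F : MvPolynomial (Fin 2) M)
    [IsDedekindDomain (CR F)] (P : Fin 2 → M) (hP : MvPolynomial.eval P F = 0) :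
    MvPolynomial.eval P (MvPolynomial.pderiv 0 F) ≠ 0 ∨
      MvPolynomial.eval P (MvPolynomial.pderiv 1 F) ≠ 0 := by
  classical
  have hmax := pt_max F P hP
  have hne := pt_ne_bot F P hP
  obtain ⟨m, hm⟩ : ∃ m, m = ptIdeal F P := ⟨_, rfl⟩
  rw [← hm] at hmax hne
  obtain ⟨u, hu⟩ : ∃ u : Fin 2 → CR F, ∀ i, u i = Ideal.Quotient.mk (Ideal.span {F})
    (MvPolynomial.X i - MvPolynomial.C (P i)) := ⟨_, fun i => rfl⟩
  have hmu : m = Ideal.span (Set.range u) := by
    rw [hm]
    unfold ptIdeal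
    rw [Ideal.map_span, ← Set.range_comp]
    congr 2
    funext i
    exact (hu i).symm
  have hum : ∀ i, u i ∈ m := by
    intro i
    rw [hmu]
    exact Ideal.subset_span (Set.mem_range_self i)
  obtain ⟨l, hl⟩ : ∃ l : Fin 2 → M, ∀ i, l i = MvPolynomial.eval P (MvPolynomial.pderiv i F) :=
    ⟨_, fun i => rfl⟩
  rw [← hl, ← hl]
  obtain ⟨c, d, hcd, hmem⟩ := two (M := M) m m hne hmax (hm ▸ pt_res F P hP) (u 0) (u 1)
    (hum 0) (hum 1)
  have h1 : c • u 0 + d • u 1 = Ideal.Quotient.mk (Ideal.span {F})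
      (MvPolynomial.C c * (MvPolynomial.X 0 - MvPolynomial.C (P 0)) +
        MvPolynomial.C d * (MvPolynomial.X 1 - MvPolynomial.C (P 1))) := by
    have s1 : c • u 0 = algebraMap M (CR F) c * u 0 := Algebra.smul_def c (u 0)
    have s2 : d • u 1 = algebraMap M (CR F) d * u 1 := Algebra.smul_def d (u 1)
    rw [map_add, map_mul, map_mul, ← hu, ← hu, s1, s2]
    rfl
  have h2 : m * m = ((Ideal.span (Set.range fun i => (MvPolynomial.X i - MvPolynomial.C (P i) :
      MvPolynomial (Fin 2) M))) ^ 2).map (Ideal.Quotient.mk (Ideal.span {F})) := by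
    have s1 : m * m = m ^ 2 := (pow_two m).symm
    rw [s1, Ideal.map_pow, hm]
    rfl
  rw [h1, h2, Ideal.mem_quotient_iff_mem_sup] at hmem
  obtain ⟨g, hg, f, hf, hgf⟩ := Submodule.mem_sup.mp hmem
  obtain ⟨b, rfl⟩ := Ideal.mem_span_singleton'.mp hf
  have h3 : ∀ j, MvPolynomial.eval P (MvPolynomial.pderiv j
      (MvPolynomial.C c * (MvPolynomial.X 0 - MvPolynomial.C (P 0)) +
        MvPolynomial.C d * (MvPolynomial.X 1 - MvPolynomial.C (P 1)))) =
      MvPolynomial.eval P b * l j := by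
    intro j
    rw [← hgf, map_add, map_add, RL_deriv P g hg j, zero_add, MvPolynomial.pderiv_mul, map_add,
      map_mul, map_mul, hP, mul_zero, zero_add, hl]
  by_contra hcon
  push Not at hcon
  have h4 := h3 0
  have h5 := h3 1
  rw [hcon.1, mul_zero] at h4
  rw [hcon.2, mul_zero] at h5
  have e1 : (MvPolynomial.pderiv 0) (MvPolynomial.X 1 : MvPolynomial (Fin 2) M) = 0 :=
    MvPolynomial.pderiv_X_of_ne (by decide)
  have e2 : (MvPolynomial.pderiv 1) (MvPolynomial.X 0 : MvPolynomial (Fin 2) M) = 0 :=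
    MvPolynomial.pderiv_X_of_ne (by decide)
  simp only [map_add, MvPolynomial.pderiv_mul, MvPolynomial.pderiv_C, map_sub, zero_mul,
    MvPolynomial.pderiv_X_self, e1, e2, sub_zero, mul_one, mul_zero, add_zero, zero_add,
    MvPolynomial.eval_C] at h4 h5
  rcases hcd with hc | hd
  · exact hc h4
  · exact hd h5

theorem c1_ne {M : Type*} [Field M] (F : MvPolynomial (Fin 2) M)
    [IsDedekindDomain (CR F)] (P : Fin 2 → M) (hP : MvPolynomial.eval P F = 0) :
    (hat P F).coeff 1 ≠ 0 := by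
  intro h
  have h1 : ∀ δ : Fin 2 → M, (lin F P δ).coeff 1 = 0 := by
    intro δ
    rw [← eval_coeff_hat, h, map_zero]
  rcases smooth_pt F P hP with h2 | h2
  · apply h2
    have h3 := h1 ![1, 0]
    rw [RL_coeff_one, RL_aeval, RL_aeval] at h3
    simpa using h3
  · apply h2
    have h3 := h1 ![0, 1]
    rw [RL_coeff_one, RL_aeval, RL_aeval] at h3
    simpa using h3

theorem local_dir' {M : Type*} [Field M] (F q : MvPolynomial (Fin 2) M) (hF : F.totalDegree ≤ 4)
    [IsDedekindDomain (CR F)] (P : Fin 2 → M) (hP : MvPolynomial.eval P F = 0)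
    (h : Ideal.Quotient.mk (Ideal.span {F}) (MvPolynomial.C (MvPolynomial.eval P q) * tay F P 3
      - tay q P 1 * tay F P 2) ∈ (ptIdeal F P) ^ 4) :
    ∃ δ : Fin 2 → M, δ ≠ 0 ∧ (lin F P δ).coeff 1 = 0 ∧
      MvPolynomial.eval P q * (lin F P δ).coeff 3 = (lin q P δ).coeff 1 * (lin F P δ).coeff 2 := by
  classical
  have hmax := pt_max F P hP
  have hne := pt_ne_bot F P hP
  obtain ⟨m, hm⟩ : ∃ m, m = ptIdeal F P := ⟨_, rfl⟩
  rw [← hm] at h hmax hne
  have hprime : m.IsPrime := hmax.isPrime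
  obtain ⟨u, hu⟩ : ∃ u : Fin 2 → CR F, ∀ i, u i = Ideal.Quotient.mk (Ideal.span {F})
    (MvPolynomial.X i - MvPolynomial.C (P i)) := ⟨_, fun i => rfl⟩
  have hmu : m = Ideal.span (Set.range u) := by
    rw [hm]
    unfold ptIdeal
    rw [Ideal.map_span, ← Set.range_comp]
    congr 2
    funext i
    exact (hu i).symm
  have hum : ∀ i, u i ∈ m := by
    intro i
    rw [hmu]
    exact Ideal.subset_span (Set.mem_range_self i)
  obtain ⟨p, hp⟩ : ∃ p : Fin 2 → CR F, ∀ i, p i = algebraMap M (CR F) (P i) := ⟨_, fun i => rfl⟩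
  have htay : ∀ (G : MvPolynomial (Fin 2) M) i,
      Ideal.Quotient.mk (Ideal.span {F}) (tay G P i) = (lin G p u).coeff i := by
    intro G i
    have h1 := coeff_lin_map G (Ideal.Quotient.mkₐ M (Ideal.span {F}))
      (fun i => MvPolynomial.C (P i)) (fun i => MvPolynomial.X i - MvPolynomial.C (P i)) i
    have h2 : (fun i => (Ideal.Quotient.mkₐ M (Ideal.span {F}))
        (MvPolynomial.X i - MvPolynomial.C (P i))) = u := by
      funext i
      exact (hu i).symm
    have h3 : (fun i => (Ideal.Quotient.mkₐ M (Ideal.span {F}))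
        (MvPolynomial.C (P i))) = p := by
      funext i
      exact (hp i).symm
    rw [h2, h3] at h1
    exact h1.symm
  obtain ⟨l, hl⟩ : ∃ l : Fin 2 → M, ∀ i, l i = MvPolynomial.eval P (MvPolynomial.pderiv i F) :=
    ⟨_, fun i => rfl⟩
  have hsum : (lin F p u).coeff 1 + (lin F p u).coeff 2 + (lin F p u).coeff 3 +
      (lin F p u).coeff 4 = 0 := by
    have h1 := congrArg (Ideal.Quotient.mk (Ideal.span {F})) (sum_tay F hF P hP)
    have h2 : Ideal.Quotient.mk (Ideal.span {F}) F = 0 :=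
      Ideal.Quotient.eq_zero_iff_mem.mpr (Ideal.mem_span_singleton_self F)
    rw [map_add, map_add, map_add, htay, htay, htay, htay, h2] at h1
    exact h1.symm
  have hl0 : l 0 ≠ 0 ∨ l 1 ≠ 0 := by
    rw [hl, hl]
    exact smooth_pt F P hP
  obtain ⟨δ, hδ, hδ1, w, hwm, hw2, hw⟩ := unif F P m hprime hne u p hmu hp hsum l hl hl0
  refine ⟨δ, hδ, hδ1, ?_⟩
  by_contra hcon
  apply hw2
  apply RL_cube m hprime hne
  have hmk : Ideal.Quotient.mk (Ideal.span {F}) (MvPolynomial.C (MvPolynomial.eval P q))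
      = algebraMap M (CR F) (MvPolynomial.eval P q) := rfl
  rw [map_sub, map_mul, map_mul, htay, htay, htay, hmk] at h
  have hcong := fun (G : MvPolynomial (Fin 2) M) =>
    RL_cong m p u (fun i => w * algebraMap M (CR F) (δ i)) hum
    (fun i => Ideal.mul_mem_right _ _ hwm) (fun i => by rw [mul_comm]; exact hw i) G
  have hval : ∀ (G : MvPolynomial (Fin 2) M) n,
      (lin G p (fun i => w * algebraMap M (CR F) (δ i))).coeff n =
        algebraMap M (CR F) ((lin G P δ).coeff n) * w ^ n := by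
    intro G n
    have h4 := coeff_lin_map G (Algebra.ofId M (CR F)) P δ n
    have h5 : (fun i => (Algebra.ofId M (CR F)) (P i)) = p := by
      funext i
      exact (hp i).symm
    rw [h5] at h4
    have h6 : (lin G p (fun i => algebraMap M (CR F) (δ i))).coeff n =
      algebraMap M (CR F) ((lin G P δ).coeff n) := h4
    rw [lin_scale, Polynomial.comp_C_mul_X_coeff, h6]
  obtain ⟨-, -, c3⟩ := hcong F 3
  obtain ⟨-, -, c1⟩ := hcong q 1
  obtain ⟨c2u, -, c2⟩ := hcong F 2
  obtain ⟨-, c1v, -⟩ := hcong q 1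
  rw [hval] at c3 c1 c2 c1v
  set E : M := MvPolynomial.eval P q * (lin F P δ).coeff 3
    - (lin q P δ).coeff 1 * (lin F P δ).coeff 2 with hE
  have hE0 : E ≠ 0 := sub_ne_zero.2 hcon
  have h4 : algebraMap M (CR F) E * w ^ 3 ∈ m ^ 4 := by
    have e : algebraMap M (CR F) E * w ^ 3 =
        (algebraMap M (CR F) (MvPolynomial.eval P q) * (lin F p u).coeff 3
          - (lin q p u).coeff 1 * (lin F p u).coeff 2)
        - algebraMap M (CR F) (MvPolynomial.eval P q) * ((lin F p u).coeff 3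
          - algebraMap M (CR F) ((lin F P δ).coeff 3) * w ^ 3)
        + (((lin q p u).coeff 1 - algebraMap M (CR F) ((lin q P δ).coeff 1) * w ^ 1)
            * (lin F p u).coeff 2
          + algebraMap M (CR F) ((lin q P δ).coeff 1) * w ^ 1
            * ((lin F p u).coeff 2 - algebraMap M (CR F) ((lin F P δ).coeff 2) * w ^ 2)) := by
      rw [hE, map_sub, map_mul, map_mul]
      ring
    rw [e]
    refine (m ^ 4).add_mem ((m ^ 4).sub_mem h (Ideal.mul_mem_left _ _ c3)) ((m ^ 4).add_mem ?_ ?_)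
    · have e2 : m ^ 4 = m ^ 2 * m ^ 2 := by rw [← pow_add]
      rw [e2]
      exact Ideal.mul_mem_mul c1 c2u
    · have e2 : m ^ 4 = m ^ 1 * m ^ 3 := by rw [← pow_add]
      rw [e2]
      exact Ideal.mul_mem_mul c1v c2
  have h5 : w ^ 3 = algebraMap M (CR F) E⁻¹ * (algebraMap M (CR F) E * w ^ 3) := by
    rw [← mul_assoc, ← map_mul, inv_mul_cancel₀ hE0, map_one, one_mul]
  rw [h5]
  exact Ideal.mul_mem_left _ _ h4

end Pool.Agent.TQC
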