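import Mathlib

/-!
# The joint invariant of a quartic and a quadratic binary form
-/

namespace Pool.Agent.TQC

open Polynomial

section ring

variable {A : Type*} [CommRing A]

/-- `3 × 3` determinant -/
def det3 (u0 u1 u2 v0 v1 v2 w0 w1 w2 : A) : A :=
  u0 * (v1 * w2 - v2 * w1) - u1 * (v0 * w2 - v2 * w0) + u2 * (v0 * w1 - v1 * w0)

/-- the joint invariant in terms of the coefficients -/
def jj (f0 f1 f2 f3 f4 r0 r1 r2 : A) : A :=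
  let a0 := 2 * f2 * r0 - f1 * r1 + 4 * f0 * r2
  let a1 := 2 * f3 * r0 + 2 * f1 * r2
  let a2 := 4 * f4 * r0 - f3 * r1 + 2 * f2 * r2
  let b0 := 2 * f2 * a0 - f1 * a1 + 4 * f0 * a2
  let b1 := 2 * f3 * a0 + 2 * f1 * a2
  let b2 := 4 * f4 * a0 - f3 * a1 + 2 * f2 * a2
  det3 r0 r1 r2 a0 a1 a2 b0 b1 b2

/-- the condition for the quadratic form `r` to be in the pencil of `(X-x)(X-a)`, `(X-b)(X-c)` -/
def dd (x a b c r0 r1 r2 : A) : A :=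
  det3 (x * a) (-(x + a)) 1 (b * c) (-(b + c)) 1 r0 r1 r2

theorem jj_form (c β α m0 m1 m2 r0 r1 r2 : A) :
    jj (c * r0 ^ 2 + β * (m0 * r0) + α * m0 ^ 2)
      (c * (2 * r0 * r1) + β * (m0 * r1 + m1 * r0) + α * (2 * m0 * m1))
      (c * (r1 ^ 2 + 2 * r0 * r2) + β * (m0 * r2 + m1 * r1 + m2 * r0)
        + α * (m1 ^ 2 + 2 * m0 * m2))
      (c * (2 * r1 * r2) + β * (m1 * r2 + m2 * r1) + α * (2 * m1 * m2))
      (c * r2 ^ 2 + β * (m2 * r2) + α * m2 ^ 2) r0 r1 r2 = 0 := by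
  simp only [jj, det3]
  ring

theorem jj_shift (f0 f1 f2 f3 f4 r0 r1 r2 c : A) :
    jj (f0 + c * r0 ^ 2) (f1 + c * (2 * r0 * r1)) (f2 + c * (r1 ^ 2 + 2 * r0 * r2))
      (f3 + c * (2 * r1 * r2)) (f4 + c * r2 ^ 2) r0 r1 r2 = jj f0 f1 f2 f3 f4 r0 r1 r2 := by
  simp only [jj, det3]
  ring

theorem jj_roots (l x a b c r0 r1 r2 : A) :
    jj (l * (x * a * b * c)) (-(l * (x * a * b + x * a * c + x * b * c + a * b * c)))
      (l * (x * a + x * b + x * c + a * b + a * c + b * c)) (-(l * (x + a + b + c))) l r0 r1 r2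
      = - (4 * l ^ 3 * (dd x a b c r0 r1 r2 * dd x b a c r0 r1 r2 * dd x c a b r0 r1 r2)) := by
  simp only [jj, dd, det3]
  ring

theorem jj_translate (f0 f1 f2 f3 f4 r0 r1 r2 b : A) :
    jj (f0 + f1 * b + f2 * b ^ 2 + f3 * b ^ 3 + f4 * b ^ 4)
      (f1 + 2 * f2 * b + 3 * f3 * b ^ 2 + 4 * f4 * b ^ 3) (f2 + 3 * f3 * b + 6 * f4 * b ^ 2)
      (f3 + 4 * f4 * b) f4 (r0 + r1 * b + r2 * b ^ 2) (r1 + 2 * r2 * b) r2
      = jj f0 f1 f2 f3 f4 r0 r1 r2 := by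
  simp only [jj, det3]
  ring

end ring

end Pool.Agent.TQC
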