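import Pool.Agent.TQC.JJ
import Pool.Agent.TQU.Main

/-!
# The joint invariant on pairs of polynomials in one variable
-/

namespace Pool.Agent.TQC

open Polynomial Pool.Agent.TQU

/-- the joint invariant of a polynomial of degree `≤ 4` and a polynomial of degree `≤ 2` -/
def JJ {A : Type*} [CommRing A] (g r : A[X]) : A :=
  jj (g.coeff 0) (g.coeff 1) (g.coeff 2) (g.coeff 3) (g.coeff 4) (r.coeff 0) (r.coeff 1) (r.coeff 2)

section

variable {A : Type*} [CommRing A]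

theorem coeffs5 (a0 a1 a2 a3 a4 : A) (g : A[X])
    (hg : g = C a0 + C a1 * X + C a2 * X ^ 2 + C a3 * X ^ 3 + C a4 * X ^ 4) :
    g.coeff 0 = a0 ∧ g.coeff 1 = a1 ∧ g.coeff 2 = a2 ∧ g.coeff 3 = a3 ∧ g.coeff 4 = a4 := by
  subst hg
  refine ⟨?_, ?_, ?_, ?_, ?_⟩ <;> simp [coeff_X, coeff_X_pow, coeff_C]

theorem coeffs3 (a0 a1 a2 : A) (g : A[X]) (hg : g = C a0 + C a1 * X + C a2 * X ^ 2) :
    g.coeff 0 = a0 ∧ g.coeff 1 = a1 ∧ g.coeff 2 = a2 := by
  subst hg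
  refine ⟨?_, ?_, ?_⟩ <;> simp [coeff_X, coeff_X_pow, coeff_C]

theorem expand4 (g : A[X]) (hg : g.natDegree ≤ 4) :
    g = C (g.coeff 0) + C (g.coeff 1) * X + C (g.coeff 2) * X ^ 2 + C (g.coeff 3) * X ^ 3
      + C (g.coeff 4) * X ^ 4 := by
  have h := g.as_sum_range' 5 (Nat.lt_succ_of_le hg)
  simpa only [Finset.sum_range_succ, Finset.sum_range_zero, zero_add, ← C_mul_X_pow_eq_monomial,
    pow_zero, mul_one, pow_one] using h

theorem expand2 (g : A[X]) (hg : g.natDegree ≤ 2) :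
    g = C (g.coeff 0) + C (g.coeff 1) * X + C (g.coeff 2) * X ^ 2 := by
  have h := g.as_sum_range' 3 (Nat.lt_succ_of_le hg)
  simpa only [Finset.sum_range_succ, Finset.sum_range_zero, zero_add, ← C_mul_X_pow_eq_monomial,
    pow_zero, mul_one, pow_one] using h

theorem JJ_expand (f0 f1 f2 f3 f4 r0 r1 r2 : A) (g r : A[X])
    (hg : g = C f0 + C f1 * X + C f2 * X ^ 2 + C f3 * X ^ 3 + C f4 * X ^ 4)
    (hr : r = C r0 + C r1 * X + C r2 * X ^ 2) :
    JJ g r = jj f0 f1 f2 f3 f4 r0 r1 r2 := by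
  obtain ⟨e0, e1, e2, e3, e4⟩ := coeffs5 _ _ _ _ _ g hg
  obtain ⟨d0, d1, d2⟩ := coeffs3 _ _ _ r hr
  rw [JJ, e0, e1, e2, e3, e4, d0, d1, d2]

theorem JJ_shift (g r : A[X]) (hg : g.natDegree ≤ 4) (hr : r.natDegree ≤ 2) (c : A) :
    JJ (g + C c * r ^ 2) r = JJ g r := by
  have h1 := expand4 g hg
  have h2 := expand2 r hr
  rw [JJ_expand (g.coeff 0 + c * r.coeff 0 ^ 2) (g.coeff 1 + c * (2 * r.coeff 0 * r.coeff 1))
    (g.coeff 2 + c * (r.coeff 1 ^ 2 + 2 * r.coeff 0 * r.coeff 2))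
    (g.coeff 3 + c * (2 * r.coeff 1 * r.coeff 2)) (g.coeff 4 + c * r.coeff 2 ^ 2)
    (r.coeff 0) (r.coeff 1) (r.coeff 2) (g + C c * r ^ 2) r ?_ h2, jj_shift]
  · rfl
  · conv_lhs => rw [h1, h2]
    simp only [C_add, C_mul, C_pow, map_ofNat]
    ring

theorem JJ_form (m r : A[X]) (hm : m.natDegree ≤ 2) (hr : r.natDegree ≤ 2) (c β α : A) :
    JJ (C c * r ^ 2 + C β * (m * r) + C α * m ^ 2) r = 0 := by
  have h1 := expand2 m hm
  have h2 := expand2 r hr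
  rw [JJ_expand _ _ _ _ _ (r.coeff 0) (r.coeff 1) (r.coeff 2)
    (C c * r ^ 2 + C β * (m * r) + C α * m ^ 2) r ?_ h2]
  · exact jj_form c β α (m.coeff 0) (m.coeff 1) (m.coeff 2) (r.coeff 0) (r.coeff 1) (r.coeff 2)
  · conv_lhs => rw [h1, h2]
    simp only [C_add, C_mul, C_pow, map_ofNat]
    ring

theorem JJ_translate (g r : A[X]) (hg : g.natDegree ≤ 4) (hr : r.natDegree ≤ 2) (b : A) :
    JJ (g.comp (X + C b)) (r.comp (X + C b)) = JJ g r := by
  have h1 := expand4 g hg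
  have h2 := expand2 r hr
  rw [JJ_expand _ _ _ _ _ (r.coeff 0 + r.coeff 1 * b + r.coeff 2 * b ^ 2)
    (r.coeff 1 + 2 * r.coeff 2 * b) (r.coeff 2) (g.comp (X + C b)) (r.comp (X + C b)) ?_ ?_]
  · exact jj_translate (g.coeff 0) (g.coeff 1) (g.coeff 2) (g.coeff 3) (g.coeff 4) (r.coeff 0)
      (r.coeff 1) (r.coeff 2) b
  · conv_lhs => rw [h1]
    simp only [add_comp, mul_comp, C_comp, X_comp, pow_comp, C_add, C_mul, C_pow, map_ofNat]
    ring
  · conv_lhs => rw [h2]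
    simp only [add_comp, mul_comp, C_comp, X_comp, pow_comp, C_add, C_mul, C_pow, map_ofNat]
    ring

theorem JJ_roots (r : A[X]) (hr : r.natDegree ≤ 2) (l x a b c : A) :
    JJ (C l * ((X - C x) * (X - C a) * (X - C b) * (X - C c))) r
      = - (4 * l ^ 3 * (dd x a b c (r.coeff 0) (r.coeff 1) (r.coeff 2)
        * dd x b a c (r.coeff 0) (r.coeff 1) (r.coeff 2)
        * dd x c a b (r.coeff 0) (r.coeff 1) (r.coeff 2))) := by
  have h2 := expand2 r hr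
  rw [JJ_expand _ _ _ _ _ (r.coeff 0) (r.coeff 1) (r.coeff 2)
    (C l * ((X - C x) * (X - C a) * (X - C b) * (X - C c))) r ?_ h2]
  · exact jj_roots l x a b c (r.coeff 0) (r.coeff 1) (r.coeff 2)
  · simp only [C_add, C_mul, C_neg]
    ring

end

section

variable {k : Type*} [CommRing k]

theorem JJ_lin_map {A B : Type*} [CommRing A] [CommRing B] [Algebra k A] [Algebra k B]
    (f q : MvPolynomial (Fin 2) k) (ψ : A →ₐ[k] B) (p δ : Fin 2 → A) :
    JJ (lin f (fun i => ψ (p i)) (fun i => ψ (δ i))) (lin q (fun i => ψ (p i)) (fun i => ψ (δ i)))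
      = ψ (JJ (lin f p δ) (lin q p δ)) := by
  simp only [JJ, jj, det3, coeff_lin_map, map_sub, map_add, map_mul, map_ofNat]

end

end Pool.Agent.TQC
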